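import Pool.Agent.helper79.EPT.Spec

/-! # ept:DEN: counting residue classes in an interval -/

set_option autoImplicit false

namespace Pool.Agent.EPT

open Finset

theorem DEN_one (L : ℕ) (hL : 0 < L) (y : ℤ) (x : ℕ) (b : ℕ) :
    (((Ioc y (y + x)).filter fun a : ℤ => (a % L).toNat = b).card : ℝ) ≤ (x : ℝ) / L + 1 := by
  have hL' : (0 : ℤ) < L := by exact_mod_cast hL
  have hsub : ((Ioc y (y + x)).filter fun a : ℤ => (a % L).toNat = b) ⊆
      (Ioc y (y + x)).filter fun a : ℤ => a ≡ (b : ℤ) [ZMOD (L : ℤ)] := by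
    intro a ha
    rw [mem_filter] at ha ⊢
    refine ⟨ha.1, ?_⟩
    have h1 : 0 ≤ a % (L : ℤ) := Int.emod_nonneg _ hL'.ne'
    have h2 : (b : ℤ) = a % (L : ℤ) := by
      rw [← ha.2, Int.toNat_of_nonneg h1]
    rw [h2]
    exact (Int.mod_modEq a L).symm
  have h3 := card_le_card hsub
  have h4 := Int.Ioc_filter_modEq_card y (y + x) hL' (b : ℤ)
  have h5 : ((((Ioc y (y + x)).filter fun a : ℤ => a ≡ (b : ℤ) [ZMOD (L : ℤ)]).card : ℤ) : ℚ) ≤
      (x : ℚ) / L + 1 := by
    rw [h4]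
    push_cast
    apply max_le
    · have h6 := Int.floor_le (((y : ℚ) + x - b) / L)
      have h7 := Int.lt_floor_add_one (((y : ℚ) - b) / L)
      have h8 : ((y : ℚ) + x - b) / L = ((y : ℚ) - b) / L + (x : ℚ) / L := by ring
      rw [h8] at h6
      rw [h8]
      linarith
    · positivity
  have h9 : (((Ioc y (y + x)).filter fun a : ℤ => a ≡ (b : ℤ) [ZMOD (L : ℤ)]).card : ℝ) ≤ (x : ℝ) / L + 1 := by
    have h10 : (((((Ioc y (y + x)).filter fun a : ℤ => a ≡ (b : ℤ) [ZMOD (L : ℤ)]).card : ℕ) : ℚ) : ℝ) ≤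
        (((x : ℚ) / L + 1 : ℚ) : ℝ) := by
      exact_mod_cast h5
    push_cast at h10
    exact h10
  have h11 : (((Ioc y (y + x)).filter fun a : ℤ => (a % L).toNat = b).card : ℝ) ≤
      (((Ioc y (y + x)).filter fun a : ℤ => a ≡ (b : ℤ) [ZMOD (L : ℤ)]).card : ℝ) := by exact_mod_cast h3
  exact h11.trans h9

theorem DEN : DEN_stmt := by
  intro L B y x hL _
  have h1 : ((Ioc y (y + x)).filter fun a : ℤ => (a % L).toNat ∈ B).card =
      ∑ b ∈ B, ((Ioc y (y + x)).filter fun a : ℤ => (a % L).toNat = b).card := by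
    rw [card_eq_sum_card_fiberwise (f := fun a : ℤ => (a % L).toNat) (t := B)]
    · apply sum_congr rfl
      intro b hb
      congr 1
      ext a
      simp only [mem_filter]
      constructor
      · rintro ⟨⟨h2, -⟩, h3⟩
        exact ⟨h2, h3⟩
      · rintro ⟨h2, h3⟩
        refine ⟨⟨h2, ?_⟩, h3⟩
        rw [h3]
        exact hb
    · intro a ha
      exact (mem_filter.1 ha).2
  rw [h1]
  push_cast
  refine (sum_le_sum fun b _ => DEN_one L hL y x b).trans ?_
  rw [sum_const, nsmul_eq_mul, mul_comm]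

end Pool.Agent.EPT
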