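import Pool.Agent.helper60.EPT.Spec

set_option autoImplicit false

namespace Pool.Agent.EPT

open D

theorem GRF_size (s : D) : s.size ≤ s.fst.size + s.snd.size + 1 := by
  cases s <;> simp

theorem GRF_drop (L : List D) (i : ℕ) : (ofList (L.drop i)).size ≤ (ofList L).size := by
  induction L generalizing i with
  | nil => simp
  | cons b L ih =>
    cases i with
    | zero => simp
    | succ i =>
      have h := ih i
      simp only [List.drop_succ_cons, ofList_cons, size_cons]
      omega

theorem GRF_take (L : List D) (i : ℕ) : (ofList (L.take i)).size ≤ (ofList L).size := by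
  induction L generalizing i with
  | nil => simp
  | cons b L ih =>
    cases i with
    | zero =>

      simp
    | succ i =>
      have h := ih i
      simp only [List.take_succ_cons, ofList_cons, size_cons]
      omega

theorem GRF_step (s : D) (i n : ℕ) (h1 : s.fst.size ≤ 4 * i + 3) (h2 : s.snd.fst.size ≤ n)
    (h3 : s.snd.snd.size ≤ i * (4 * i + n + 5) + 1) :
    (gst s).fst.size ≤ 4 * (i + 1) + 3 ∧ (gst s).snd.fst.size ≤ n ∧
      (gst s).snd.snd.size ≤ (i + 1) * (4 * (i + 1) + n + 5) + 1 := by
  unfold gst
  split_ifs with h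
  · refine ⟨by omega, h2, ?_⟩
    nlinarith
  · have hd := GRF_drop s.snd.fst.toList s.fst.toList.length
    have ht := GRF_take s.snd.fst.toList s.fst.toList.length
    rw [ofList_toList] at hd ht
    simp only [fst_cons, snd_cons, size_cons, size_nil]
    refine ⟨by omega, by omega, ?_⟩
    nlinarith

theorem GRF_inv (z : D) (i : ℕ) :
    (gst^[i] (cons one (cons z nil))).fst.size ≤ 4 * i + 3 ∧
    (gst^[i] (cons one (cons z nil))).snd.fst.size ≤ z.size ∧
    (gst^[i] (cons one (cons z nil))).snd.snd.size ≤ i * (4 * i + z.size + 5) + 1 := by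
  induction i with
  | zero => simp [one]
  | succ i ih =>
    rw [Function.iterate_succ_apply']
    exact GRF_step _ i z.size ih.1 ih.2.1 ih.2.2

theorem GRF_gst (hC : Cal) (hL : CalL) : FP gst := by
  have hid := hC.id
  have hf : FP fun s => s.fst := hC.fst _ hid
  have hs : FP fun s => s.snd := hC.snd _ hid
  have hsf : FP fun s => s.snd.fst := hC.fst _ hs
  have hss : FP fun s => s.snd.snd := hC.snd _ hs
  have hn := hC.const nil
  exact hC.cond _ _ _ hsf
    (hC.cons _ _ (hC.cons _ _ hn (hC.cons _ _ hn hf))
      (hC.cons _ _ (hL.drop _ _ hf hsf) (hC.cons _ _ (hC.cons _ _ hf (hL.take _ _ hf hsf)) hss))) hid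

theorem GRF (hC : Cal) (hL : CalL) : GRF_stmt := by
  have hstart : FP fun z => cons one (cons z nil) :=
    hC.cons _ _ (hC.const one) (hC.cons _ _ hC.id (hC.const nil))
  have h := hC.iter gst (fun z => z) (fun z => cons one (cons z nil)) (GRF_gst hC hL) hC.id hstart
    ⟨6, by
      intro z i hi
      obtain ⟨h1, h2, h3⟩ := GRF_inv z i
      have hl := length_le_size z
      have a1 := GRF_size (gst^[i] (cons one (cons z nil)))
      have a2 := GRF_size (gst^[i] (cons one (cons z nil))).snd
      have hin : i ≤ z.size := by omega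
      have h4 : i * (4 * i + z.size + 5) ≤ z.size * (4 * z.size + z.size + 5) :=
        Nat.mul_le_mul hin (by omega)
      have h5 : 5 * (z.size + 6) ^ 2 ≤ (z.size + 6) ^ 4 * (z.size + 6) ^ 2 := by
        refine Nat.mul_le_mul_right _ ?_
        calc 5 ≤ 6 ^ 4 := by norm_num
          _ ≤ (z.size + 6) ^ 4 := Nat.pow_le_pow_left (by omega) 4
      have h6 : (z.size + 6) ^ 6 = (z.size + 6) ^ 4 * (z.size + 6) ^ 2 := by ring
      rw [h6]
      refine le_trans ?_ h5
      nlinarith⟩
  exact hC.snd _ (hC.snd _ h)

end Pool.Agent.EPT
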