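import Pool.Agent.helper60.EPT.Spec

set_option autoImplicit false

namespace Pool.Agent.EPT

open D

theorem HAG_vals (v w : D → D) (r : D) (h : ∀ x ∈ r.toList, v x = w x) : vals v r = vals w r := by
  unfold vals
  rw [List.map_congr_left h]

theorem HAG : HAG_stmt := by
  intro F v w ψ h
  fun_induction Holds F v ψ with
  | case1 => simp [Holds]
  | case2 => simp [Holds]
  | case3 a b iha ihb =>
    simp only [vars, List.mem_append] at h
    simp only [Holds]
    rw [iha (fun x hx => h x (Or.inl hx)), ihb (fun x hx => h x (Or.inr hx))]
  | case4 r a b hab =>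
    simp only [vars] at h
    simp only [Holds, hab, if_true]
    rw [HAG_vals v w _ h]
  | case5 r a b hab =>
    simp only [vars] at h
    simp only [Holds, hab, if_false]
    rw [HAG_vals v w _ h]

end Pool.Agent.EPT
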