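import Pool.Agent.helper60.EPT.Spec

set_option autoImplicit false

namespace Pool.Agent.EPT

open D

theorem RFO_drop (L : List D) (i : ℕ) : (ofList (L.drop i)).size ≤ (ofList L).size := by
  induction L generalizing i with
  | nil => simp
  | cons b L ih =>
    cases i with
    | zero => simp
    | succ i =>
      have h := ih i
      simp only [List.drop_succ_cons, ofList_cons, size_cons]
      omega

/-- The step. -/
def RFO_g (f : D → D) (s : D) : D :=
  cons (f (cons s.fst (cons s.snd.fst.fst s.snd.snd))) (cons s.snd.fst.snd s.snd.snd)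

theorem RFO_iter (f : D → D) (L : List D) (A E : D) (i : ℕ) (hi : i ≤ L.length) :
    (RFO_g f)^[i] (cons A (cons (ofList L) E)) =
      cons ((L.take i).foldl (fun acc h => f (cons acc (cons h E))) A)
        (cons (ofList (L.drop i)) E) := by
  induction i with
  | zero => simp
  | succ i ih =>
    have hi' : i < L.length := hi
    rw [Function.iterate_succ_apply', ih hi'.le, List.drop_eq_getElem_cons hi',
      List.take_succ_eq_append_getElem hi', List.foldl_append]
    simp only [RFO_g, ofList_cons, fst_cons, snd_cons, List.foldl_cons, List.foldl_nil]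

theorem RFO (hPBC : PBC_stmt) (hRBA : RBA_stmt) (hRCG : RCG_stmt) (hRCO : RCO_stmt) (hRIT : RIT_stmt) : RFO_stmt := by
  intro S hS f l e a hf hl he ha hB
  obtain ⟨B, hB1, hB2⟩ := hB
  obtain ⟨pconst, pself, padd, ppow, pmono, ptrans⟩ := hPBC
  obtain ⟨bid, bfst, bsnd, beq⟩ := hRBA
  obtain ⟨c1, c2, c3, c4⟩ := hRCG
  have hss : PB size size := pself size
  have hid : FP fun x => x := (bid size hss).1
  have hfst : FP fun x => x.fst := c2 size _ _ bfst hid
  have hsnd : FP fun x => x.snd := c2 size _ _ bsnd hid
  have hsf : FP fun x => x.snd.fst := c2 size _ _ bfst hsnd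
  have hsff : FP fun x => x.snd.fst.fst := c2 size _ _ bfst hsf
  have hsfs : FP fun x => x.snd.fst.snd := c2 size _ _ bsnd hsf
  have hsns : FP fun x => x.snd.snd := c2 size _ _ bsnd hsnd
  have hin : FP fun x => cons x.fst (cons x.snd.fst.fst x.snd.snd) :=
    (hRCO size hss _ _ hfst ((hRCO size hss _ _ hsff hsns).1)).1
  have hg : FP (RFO_g f) :=
    (hRCO size hss _ _ (c2 size _ _ hf hin) ((hRCO size hss _ _ hsfs hsns).1)).1
  have hstart : RT S fun x => cons (a x) (cons (l x) (e x)) :=
    (hRCO S hS _ _ ha ((hRCO S hS _ _ hl he).1)).1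
  have hkey := hRIT S hS (RFO_g f) l (fun x => cons (a x) (cons (l x) (e x))) hg hl hstart
    ⟨fun x => (B x + (l x).size) + ((e x).size + 2),
      (padd S _ _ (padd S _ _ hB1 (c4 S _ hl)).1 (padd S _ _ (c4 S _ he) (pconst S 2)).1).1, by
      intro x i hi
      have h := RFO_iter f (l x).toList (a x) (e x) i hi
      rw [ofList_toList] at h
      rw [h]
      have h1 := hB2 x ((l x).toList.take i) (List.take_prefix _ _)
      have h2 := RFO_drop (l x).toList i
      rw [ofList_toList] at h2
      simp only [size_cons]
      omega⟩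
  have hres := c2 S _ _ bfst hkey
  have hfun : (fun x => (l x).toList.foldl (fun acc h => f (cons acc (cons h (e x)))) (a x)) =
      fun x => ((RFO_g f)^[(l x).toList.length] (cons (a x) (cons (l x) (e x)))).fst := by
    funext x
    have h := RFO_iter f (l x).toList (a x) (e x) _ le_rfl
    rw [ofList_toList] at h
    rw [h]
    simp
  rw [hfun]
  exact hres

end Pool.Agent.EPT
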