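import Pool.Agent.helper60.EPT.SpecS

set_option autoImplicit false

namespace Pool.Agent.EPT

open D

theorem DFR_leaf {α : Type} [DecidableEq α] {a b : ℕ} {F : Finset (Finset α)} (hL : Leaf a b F)
    {j : ℕ} {H : Finset α} (hB : Br a b F j H) : False := by
  rcases hB with ⟨rfl, hH, hd⟩ | ⟨rfl, hH, hd, h2⟩ | ⟨rfl, hH, hd, h2, h3⟩
  · obtain ⟨l, rfl⟩ := Finset.card_eq_one.1 hH
    have := hL.1 l
    omega
  · have := hL.2.1 H hH
    omega
  · obtain ⟨l, rfl⟩ := Finset.card_eq_one.1 hH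
    have := hL.2.2 l
    omega

/-- One formula. -/
theorem DFR_one (hSBR : SBR_stmt) (hSPT : SPT_stmt) (hSSE : SSE_stmt) (hDST : DST_stmt)
    {a b : ℕ} {x y : ℝ} {Λ : Finset D} (hW : Wts a b x y) (G : D) (hN : Nd G)
    (hG : Good a Λ (fs G)) (n : ℕ) (hn : Leaf a b (fs G) ∨ n ≤ UU (fs G) + rho a (fs G)) :
    (∀ G' ∈ (stp a b G).toList, Nd G' ∧ Good a Λ (fs G')) ∧
    (((stp a b G).toList.map fun G' => (2 : ℝ) ^ W x y a Λ (fs G')).sum ≤ (2 : ℝ) ^ W x y a Λ (fs G)) ∧
    (∀ t : D → Prop, SatF t (fs G) ↔ ∃ G' ∈ (stp a b G).toList, SatF t (fs G')) ∧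
    ∀ G' ∈ (stp a b G).toList, Leaf a b (fs G') ∨ n + 1 ≤ UU (fs G') + rho a (fs G') := by
  have ha : 1 ≤ a := hW.1
  have hb : 1 ≤ b := hW.2.1
  rcases hDST a b G ha hb hN with ⟨h1, h2⟩ | ⟨j, H, F1, F2, h1, h2, h3, h4, h5, h6⟩
  · rw [h1]
    simp only [toList_cons, toList_nil, List.mem_singleton]
    refine ⟨?_, ?_, ?_, ?_⟩
    · rintro G' rfl
      exact ⟨hN, hG⟩
    · simp
    · intro t
      simp
    · rintro G' rfl
      exact Or.inl h2
  · obtain ⟨s1, s2, s3, s4, s5, s6, s7⟩ := hSBR D a b Λ (fs G) j H ha hb hG h2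
    have hp := hSPT D a b x y Λ (fs G) j H hW hG h2
    have hs := fun t => (hSSE D t (fs G)).2 j H
    rw [← h5] at s1 s3 s5 s7 hp
    rw [← h6] at s2 s4 s6 s7 hp
    rw [h1]
    simp only [toList_cons, toList_nil, List.mem_cons, List.not_mem_nil, or_false]
    refine ⟨?_, ?_, ?_, ?_⟩
    · rintro G' (rfl | rfl)
      · exact ⟨h3, s1⟩
      · exact ⟨h4, s2⟩
    · simpa using hp
    · intro t
      rw [hs t, ← h5, ← h6]
      constructor
      · rintro (h | h)
        · exact ⟨F1, Or.inl rfl, h⟩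
        · exact ⟨F2, Or.inr rfl, h⟩
      · rintro ⟨G', rfl | rfl, h⟩
        · exact Or.inl h
        · exact Or.inr h
    · have hn' : n ≤ UU (fs G) + rho a (fs G) := by
        rcases hn with hn | hn
        · exact (DFR_leaf hn h2).elim
        · exact hn
      rintro G' (rfl | rfl)
      · right
        omega
      · right
        omega

theorem DFR_list (hSBR : SBR_stmt) (hSPT : SPT_stmt) (hSSE : SSE_stmt) (hDST : DST_stmt)
    {a b : ℕ} {x y : ℝ} {Λ : Finset D} (hW : Wts a b x y) (n : ℕ) (L : List D)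
    (h1 : ∀ G ∈ L, Nd G ∧ Good a Λ (fs G))
    (h2 : ∀ G ∈ L, Leaf a b (fs G) ∨ n ≤ UU (fs G) + rho a (fs G)) :
    (∀ G' ∈ L.flatMap fun F => (stp a b F).toList, Nd G' ∧ Good a Λ (fs G')) ∧
    (((L.flatMap fun F => (stp a b F).toList).map fun G' => (2 : ℝ) ^ W x y a Λ (fs G')).sum ≤
      (L.map fun G' => (2 : ℝ) ^ W x y a Λ (fs G')).sum) ∧
    (∀ t : D → Prop, (∃ G ∈ L, SatF t (fs G)) ↔ ∃ G' ∈ L.flatMap fun F => (stp a b F).toList, SatF t (fs G')) ∧
    ∀ G' ∈ L.flatMap fun F => (stp a b F).toList, Leaf a b (fs G') ∨ n + 1 ≤ UU (fs G') + rho a (fs G') := by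
  induction L with
  | nil => simp
  | cons G L ih =>
    obtain ⟨i1, i2, i3, i4⟩ := ih (fun G' hG' => h1 G' (List.mem_cons_of_mem _ hG'))
      (fun G' hG' => h2 G' (List.mem_cons_of_mem _ hG'))
    obtain ⟨o1, o2, o3, o4⟩ := DFR_one hSBR hSPT hSSE hDST hW G (h1 G List.mem_cons_self).1
      (h1 G List.mem_cons_self).2 n (h2 G List.mem_cons_self)
    refine ⟨?_, ?_, ?_, ?_⟩
    · intro G' hG'
      rw [List.flatMap_cons, List.mem_append] at hG'
      rcases hG' with h | h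
      · exact o1 G' h
      · exact i1 G' h
    · rw [List.flatMap_cons, List.map_append, List.sum_append, List.map_cons, List.sum_cons]
      exact add_le_add o2 i2
    · intro t
      constructor
      · rintro ⟨G', hG', hs⟩
        rw [List.mem_cons] at hG'
        rcases hG' with rfl | hG'
        · obtain ⟨G'', hG'', hs'⟩ := (o3 t).1 hs
          exact ⟨G'', by rw [List.flatMap_cons, List.mem_append]; exact Or.inl hG'', hs'⟩
        · obtain ⟨G'', hG'', hs'⟩ := (i3 t).1 ⟨G', hG', hs⟩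
          exact ⟨G'', by rw [List.flatMap_cons, List.mem_append]; exact Or.inr hG'', hs'⟩
      · rintro ⟨G', hG', hs⟩
        rw [List.flatMap_cons, List.mem_append] at hG'
        rcases hG' with hG' | hG'
        · exact ⟨G, List.mem_cons_self, (o3 t).2 ⟨G', hG', hs⟩⟩
        · obtain ⟨G'', hG'', hs'⟩ := (i3 t).2 ⟨G', hG', hs⟩
          exact ⟨G'', List.mem_cons_of_mem _ hG'', hs'⟩
    · intro G' hG'
      rw [List.flatMap_cons, List.mem_append] at hG'
      rcases hG' with h | h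
      · exact o4 G' h
      · exact i4 G' h

theorem DFR_len (hSBD : SBD_stmt) {a b : ℕ} {x y : ℝ} {Λ : Finset D} (hW : Wts a b x y) (L : List D)
    (h1 : ∀ G ∈ L, Nd G ∧ Good a Λ (fs G)) :
    ((L.length : ℕ) : ℝ) ≤ (L.map fun G' => (2 : ℝ) ^ W x y a Λ (fs G')).sum := by
  induction L with
  | nil => simp
  | cons G L ih =>
    have i := ih (fun G' hG' => h1 G' (List.mem_cons_of_mem _ hG'))
    obtain ⟨q1, q2, -⟩ := hSBD D a Λ (fs G) (h1 G List.mem_cons_self).2
    have hWp : 0 ≤ W x y a Λ (fs G) := by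
      unfold W
      have e1 : ((UU (fs G) : ℕ) : ℝ) ≤ Λ.card := by exact_mod_cast q1
      have e2 : ((rho a (fs G) : ℕ) : ℝ) ≤ 3 * (a : ℝ) * Λ.card := by exact_mod_cast q2
      have hx : 0 < x := hW.2.2.1
      have hy : 0 < y := hW.2.2.2.1
      have e3 := mul_nonneg hx.le (sub_nonneg.2 e1)
      have e4 := mul_nonneg hy.le (sub_nonneg.2 e2)
      linarith
    have h2 : (1 : ℝ) ≤ (2 : ℝ) ^ W x y a Λ (fs G) := Real.one_le_rpow (by norm_num) hWp
    rw [List.length_cons, List.map_cons, List.sum_cons]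
    push_cast
    linarith

theorem DFR (hSBD : SBD_stmt) (hSBR : SBR_stmt) (hSPT : SPT_stmt) (hSSE : SSE_stmt) (hDST : DST_stmt) : DFR_stmt := by
  intro a b x y Λ F hW hN hG
  have key : ∀ n : ℕ, (∀ G ∈ ((frn a b)^[n] (cons F nil)).toList, Nd G ∧ Good a Λ (fs G)) ∧
      ((((frn a b)^[n] (cons F nil)).toList.map fun G' => (2 : ℝ) ^ W x y a Λ (fs G')).sum ≤
        (2 : ℝ) ^ W x y a Λ (fs F)) ∧
      (∀ t : D → Prop, SatF t (fs F) ↔ ∃ G ∈ ((frn a b)^[n] (cons F nil)).toList, SatF t (fs G)) ∧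
      ∀ G ∈ ((frn a b)^[n] (cons F nil)).toList, Leaf a b (fs G) ∨ n ≤ UU (fs G) + rho a (fs G) := by
    intro n
    induction n with
    | zero =>
      simp only [Function.iterate_zero, id_eq, toList_cons, toList_nil, List.mem_singleton]
      refine ⟨?_, ?_, ?_, ?_⟩
      · rintro G rfl
        exact ⟨hN, hG⟩
      · simp
      · intro t
        simp
      · intro G _
        exact Or.inr (Nat.zero_le _)
    | succ n ih =>
      obtain ⟨i1, i2, i3, i4⟩ := ih
      obtain ⟨s1, s2, s3, s4⟩ := DFR_list hSBR hSPT hSSE hDST hW n _ i1 i4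
      rw [Function.iterate_succ_apply']
      have he : (frn a b ((frn a b)^[n] (cons F nil))).toList =
          ((frn a b)^[n] (cons F nil)).toList.flatMap fun F => (stp a b F).toList := by
        unfold frn
        rw [toList_ofList]
      rw [he]
      exact ⟨s1, s2.trans i2, fun t => (i3 t).trans (s3 t), s4⟩
  intro n
  obtain ⟨k1, k2, k3, k4⟩ := key n
  refine ⟨k1, (DFR_len hSBD hW _ k1).trans k2, k3, ?_⟩
  intro hn G hGm
  rcases k4 G hGm with h | h
  · exact h
  · exfalso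
    obtain ⟨q1, q2, -⟩ := hSBD D a Λ (fs G) (k1 G hGm).2
    have e : (1 + 3 * a) * Λ.card = Λ.card + 3 * a * Λ.card := by ring
    omega

end Pool.Agent.EPT
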