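import Pool.Agent.helper60.EPT.SpecS

set_option autoImplicit false

namespace Pool.Agent.EPT

open D

section
variable {α : Type} [DecidableEq α]

theorem SBR_heart {a : ℕ} {Λ : Finset α} {F : Finset (Finset α)} (hG : Good a Λ F) {j : ℕ}
    {H : Finset α} (hj : H.card < j) (hd : 1 ≤ deg F j H) : H ⊆ Λ ∧ ∀ C ∈ F, ¬ C ⊆ H := by
  unfold deg at hd
  obtain ⟨C0, hC0⟩ := Finset.card_pos.1 hd
  rw [Finset.mem_filter] at hC0
  refine ⟨hC0.2.2.trans (hG.sub C0 hC0.1), fun C hC hCH => ?_⟩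
  have h1 := hG.anti C hC C0 hC0.1 (hCH.trans hC0.2.2)
  have h2 := Finset.card_le_card hCH
  rw [h1, hC0.2.1] at h2
  omega

theorem SBR_petal {a : ℕ} {Λ : Finset α} {F : Finset (Finset α)} (hG : Good a Λ F) {j : ℕ}
    {H : Finset α} : ∀ P ∈ pet F j H, P.card = j - H.card ∧ P ⊆ Λ := by
  intro P hP
  unfold pet at hP
  rw [Finset.mem_image] at hP
  obtain ⟨C, hC, rfl⟩ := hP
  rw [Finset.mem_filter] at hC
  refine ⟨?_, Finset.sdiff_subset.trans (hG.sub C hC.1)⟩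
  rw [Finset.card_sdiff_of_subset hC.2.2, hC.2.1]

theorem SBR_above {a : ℕ} {Λ : Finset α} {F : Finset (Finset α)} (hG : Good a Λ F) {j : ℕ}
    {H : Finset α} (hH : 1 ≤ H.card) : ∀ C ∈ F, ∀ P ∈ pet F j H, ¬ C ⊆ P := by
  intro C hC P hP hCP
  unfold pet at hP
  rw [Finset.mem_image] at hP
  obtain ⟨C1, hC1, rfl⟩ := hP
  rw [Finset.mem_filter] at hC1
  have h1 := hG.anti C hC C1 hC1.1 (hCP.trans Finset.sdiff_subset)
  obtain ⟨h, hh⟩ := Finset.card_pos.1 hH
  rw [h1] at hCP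
  have h2 := hCP (hC1.2.2 hh)
  rw [Finset.mem_sdiff] at h2
  exact h2.2 hh

theorem SBR_inj {F : Finset (Finset α)} {j : ℕ} {H : Finset α} :
    Set.InjOn (fun C => C \ H) ((F.filter fun C => C.card = j ∧ H ⊆ C : Finset (Finset α)) : Set (Finset α)) := by
  intro C hC C' hC' h
  rw [Finset.mem_coe, Finset.mem_filter] at hC hC'
  have h1 : C \ H ∪ H = C' \ H ∪ H := by
    have h' : C \ H = C' \ H := h
    rw [h']
  rwa [Finset.sdiff_union_of_subset hC.2.2, Finset.sdiff_union_of_subset hC'.2.2] at h1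

theorem SBR_card {F : Finset (Finset α)} {j : ℕ} {H : Finset α} :
    (pet F j H).card = deg F j H := by
  unfold pet deg
  exact Finset.card_image_of_injOn SBR_inj

theorem SBR_filter {F : Finset (Finset α)} {j : ℕ} {H : Finset α} (l : α) :
    (l ∈ H → ((pet F j H).filter fun C => l ∈ C).card = 0) ∧
    ((pet F j H).filter fun C => l ∈ C).card ≤ deg F j (insert l H) := by
  constructor
  · intro hl
    rw [Finset.card_eq_zero, Finset.filter_eq_empty_iff]
    intro P hP hlP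
    unfold pet at hP
    rw [Finset.mem_image] at hP
    obtain ⟨C, hC, rfl⟩ := hP
    rw [Finset.mem_sdiff] at hlP
    exact hlP.2 hl
  · unfold deg
    refine (Finset.card_le_card (t := (F.filter fun C => C.card = j ∧ insert l H ⊆ C).image fun C => C \ H) ?_).trans
      Finset.card_image_le
    intro P hP
    rw [Finset.mem_filter] at hP
    obtain ⟨hP, hlP⟩ := hP
    unfold pet at hP
    rw [Finset.mem_image] at hP ⊢
    obtain ⟨C, hC, rfl⟩ := hP
    rw [Finset.mem_filter] at hC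
    refine ⟨C, ?_, rfl⟩
    rw [Finset.mem_filter]
    refine ⟨hC.1, hC.2.1, ?_⟩
    rw [Finset.insert_subset_iff]
    rw [Finset.mem_sdiff] at hlP
    exact ⟨hlP.1, hC.2.2⟩

end

theorem SBR (hSNW : SNW_stmt) : SBR_stmt := by
  intro α _ a b Λ F j H ha hb hG hBr
  rcases hBr with ⟨rfl, hH, hd⟩ | ⟨rfl, hH, hd, h2⟩ | ⟨rfl, hH, hd, h2, h3⟩
  · -- `j = 2`, heart of size 1
    obtain ⟨hHL, hHF⟩ := SBR_heart hG (j := 2) (H := H) (by omega) (by omega)
    obtain ⟨l1, l2, l3, -⟩ := hSNW α a Λ F {H} 1 hG (Or.inl rfl)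
      (by intro C hC; rw [Finset.mem_singleton] at hC; subst hC; exact ⟨hH, hHL⟩)
      (by intro C hC C' hC'; rw [Finset.mem_singleton] at hC'; subst hC'; exact hHF C hC)
    obtain ⟨r1, r2, r3, -⟩ := hSNW α a Λ F (pet F 2 H) 1 hG (Or.inl rfl)
      (by intro C hC; obtain ⟨q1, q2⟩ := SBR_petal hG C hC; exact ⟨by omega, q2⟩)
      (SBR_above hG (by omega))
    obtain ⟨l3a, l3b, l3c⟩ := l3 rfl
    obtain ⟨r3a, r3b, r3c⟩ := r3 rfl
    rw [SBR_card] at r3a
    rw [Finset.card_singleton] at l3a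
    refine ⟨⟨fun C hC => ⟨(l1 C hC).1, (l1 C hC).2.1⟩, fun C hC => (l1 C hC).2.2, l2,
      fun l => lt_of_le_of_lt (l3c l) (hG.deg l)⟩,
      ⟨fun C hC => ⟨(r1 C hC).1, (r1 C hC).2.1⟩, fun C hC => (r1 C hC).2.2, r2,
      fun l => lt_of_le_of_lt (r3c l) (hG.deg l)⟩, by omega, by omega, l3b, r3b, Or.inl ⟨by omega, by omega⟩⟩
  · -- `j = 3`, heart of size 2
    obtain ⟨hHL, hHF⟩ := SBR_heart hG (j := 3) (H := H) (by omega) (by omega)
    obtain ⟨l1, l2, -, l3⟩ := hSNW α a Λ F {H} 2 hG (Or.inr rfl)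
      (by intro C hC; rw [Finset.mem_singleton] at hC; subst hC; exact ⟨hH, hHL⟩)
      (by intro C hC C' hC'; rw [Finset.mem_singleton] at hC'; subst hC'; exact hHF C hC)
    obtain ⟨r1, r2, r3, -⟩ := hSNW α a Λ F (pet F 3 H) 1 hG (Or.inl rfl)
      (by intro C hC; obtain ⟨q1, q2⟩ := SBR_petal hG C hC; exact ⟨by omega, q2⟩)
      (SBR_above hG (by omega))
    obtain ⟨l3a, l3b, l3c⟩ := l3 rfl
    obtain ⟨r3a, r3b, r3c⟩ := r3 rfl
    rw [SBR_card] at r3a
    rw [Finset.card_singleton] at l3b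
    have hrho : rho a (red (F ∪ {H})) = rho a F + 1 := by
      unfold rho
      rw [l3a, l3b]
      ring
    refine ⟨⟨fun C hC => ⟨(l1 C hC).1, (l1 C hC).2.1⟩, fun C hC => (l1 C hC).2.2, l2, fun l => ?_⟩,
      ⟨fun C hC => ⟨(r1 C hC).1, (r1 C hC).2.1⟩, fun C hC => (r1 C hC).2.2, r2,
      fun l => lt_of_le_of_lt (r3c l) (hG.deg l)⟩, by omega, by omega, by omega, r3b,
      Or.inr (Or.inl ⟨by omega, by omega⟩)⟩
    have q1 := l3c l
    have q2 := h2 l
    have q3 : (({H} : Finset (Finset α)).filter fun C => l ∈ C).card ≤ 1 :=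
      (Finset.card_filter_le _ _).trans (by rw [Finset.card_singleton])
    omega
  · -- `j = 3`, heart of size 1
    obtain ⟨hHL, hHF⟩ := SBR_heart hG (j := 3) (H := H) (by omega) (by omega)
    obtain ⟨l1, l2, l3, -⟩ := hSNW α a Λ F {H} 1 hG (Or.inl rfl)
      (by intro C hC; rw [Finset.mem_singleton] at hC; subst hC; exact ⟨hH, hHL⟩)
      (by intro C hC C' hC'; rw [Finset.mem_singleton] at hC'; subst hC'; exact hHF C hC)
    obtain ⟨r1, r2, -, r3⟩ := hSNW α a Λ F (pet F 3 H) 2 hG (Or.inr rfl)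
      (by intro C hC; obtain ⟨q1, q2⟩ := SBR_petal hG C hC; exact ⟨by omega, q2⟩)
      (SBR_above hG (by omega))
    obtain ⟨l3a, l3b, l3c⟩ := l3 rfl
    obtain ⟨r3a, r3b, r3c⟩ := r3 rfl
    rw [SBR_card] at r3b
    rw [Finset.card_singleton] at l3a
    have hrho : rho a (red (F ∪ pet F 3 H)) = rho a F + deg F 3 H := by
      unfold rho
      rw [r3a, r3b]
      ring
    refine ⟨⟨fun C hC => ⟨(l1 C hC).1, (l1 C hC).2.1⟩, fun C hC => (l1 C hC).2.2, l2,
      fun l => lt_of_le_of_lt (l3c l) (hG.deg l)⟩,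
      ⟨fun C hC => ⟨(r1 C hC).1, (r1 C hC).2.1⟩, fun C hC => (r1 C hC).2.2, r2, fun l => ?_⟩,
      by omega, by omega, l3b, by omega, Or.inr (Or.inr ⟨by omega, by omega⟩)⟩
    have q1 := r3c l
    have q2 := h2 l
    obtain ⟨q3, q4⟩ := SBR_filter (F := F) (j := 3) (H := H) l
    by_cases hl : l ∈ H
    · rw [q3 hl] at q1
      omega
    · have q5 := h3 (insert l H) (by rw [Finset.card_insert_of_notMem hl, hH])
      omega

end Pool.Agent.EPT
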